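import Pool.Agent.Y487.KG.Cur
import Pool.Agent.Y333.OG.Least0

/-!
The theorem for irreducible subvarieties of tori: induction on the dimension of the torus.
-/

set_option autoImplicit false

namespace Pool.Agent.Y487.KG

open Filter Topology MvPolynomial Metric FF Pool.Agent.W602.GT Pool.Agent.Y192.OG
  Pool.Agent.W603.BP Pool.Agent.Y192.KC

variable {N ρ r : ℕ}

theorem ord_one (c : Curve N) {z : ℂ} (hz : z ∈ Ext c.r0) : c.ord z 1 = 0 := by
  obtain ⟨-, -, -, -, -, o6⟩ := (Pool.Agent.Y852.OG.t_ord N c).1 z hz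
  rw [← c.mon_zero, o6]
  unfold Curve.del
  simp

theorem ord_pow (c : Curve N) {z : ℂ} (hz : z ∈ Ext c.r0) (f : c.Mr) {s : ℤ}
    (hs : c.ord z f = (s : WithTop ℤ)) (n : ℕ) : c.ord z (f ^ n) = ((n * s : ℤ) : WithTop ℤ) := by
  obtain ⟨o1, -⟩ := (Pool.Agent.Y852.OG.t_ord N c).1 z hz
  induction n with
  | zero =>
    rw [pow_zero, ord_one c hz]
    simp
  | succ n ih =>
    rw [pow_succ, o1, ih, hs, ← WithTop.coe_add]
    congr 1
    push_cast
    ring

/-- the characters which are trivial on the stabilizer -/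
theorem step1 (hT : St_T) (hq : St_quot) (hd : St_desc) {K : Type} [Field K] [Algebra ℂ K]
    (x : Fin N → Kˣ) (Γ₀ : Submodule ℤ (Fin N → ℤ)) (hs : Sat Γ₀)
    (hom : ∀ g ∈ RingHom.ker (ep x), ∀ q, comp Γ₀ q g ∈ RingHom.ker (ep x))
    (hmin : ∀ Γ, Sat Γ → (∀ g ∈ RingHom.ker (ep x), ∀ q,
      comp Γ q g ∈ RingHom.ker (ep x)) → Γ₀ ≤ Γ) :
    ∃ (μ : ℕ) (G : Lau N), ep x G ≠ 0 ∧ ∀ m, μ ≤ m → ∀ c : Curve N,
      (∀ i, ∀ z ∈ Ext c.r0, (m : ℤ) ∣ c.oX i z) →
      (∀ g, ep x g = 0 → c.ev g = 0) → c.ev G ≠ 0 → ∀ φ ∈ Γ₀, MInf c φ := by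
  obtain ⟨ρ, γ, Γ', -, -, hγ, hm, hΓ', hs', hep, hom', hmin'⟩ :=
    hd N K x Γ₀ Γ₀ hs hs le_rfl hom hmin
  have htop : ∀ a, a ∈ Γ' := fun a => (hΓ' a).mpr ((hm _).mpr ⟨a, rfl⟩)
  have hspl : Splt Γ' (b := 0) (fun j => j.elim0) (0 : (Fin ρ → ℤ) →+ (Fin 0 → ℤ)) :=
    ⟨fun m => ⟨fun _ => htop m, fun _ => Subsingleton.elim _ _⟩, fun j => j.elim0⟩
  obtain ⟨μ, G', hG', h⟩ := hT ρ K (fun i => xm x (γ i)) Γ' hs' hom' hmin' 0 _ _ hspl 1 1 1
    one_ne_zero squarefree_one one_ne_zero (by simp)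
    (fun l hl => absurd (Subsingleton.elim _ _) hl)
  refine ⟨μ, lm γ G', by rwa [← hep], fun m hm' c hdiv hv hG φ hφ => ?_⟩
  obtain ⟨c', hr, hU, hdiv', hev, hord⟩ := hq N ρ c γ
  have hE : ExtC c' := by
    apply h c'
    · rintro z hz ⟨i, hi⟩
      refine ⟨i, ?_⟩
      have h1 := hdiv' m hdiv i z hz
      have h2 : analyticOrderAt (c'.X i) z ≠ ⊤ := by
        intro h3
        rw [analyticOrderAt_eq_top] at h3
        have h4 := c'.X_punct i hz
        obtain ⟨w, hw1, hw2⟩ := (h4.and (nhdsWithin_le_nhds h3)).exists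
        exact hw1 hw2
      have h3 : analyticOrderAt (c'.X i) z ≠ 0 := by
        rw [Ne, (c'.an i z hz).analyticOrderAt_eq_zero]
        exact fun h4 => h4 hi
      obtain ⟨k, hk⟩ := ENat.ne_top_iff_exists.mp h2
      rw [← hk] at h3 ⊢
      unfold Curve.oX at h1
      rw [← hk] at h1
      have h5 : k ≠ 0 := by
        intro h6
        apply h3
        rw [h6]
        rfl
      have h6 : m ∣ k := by
        have : (m : ℤ) ∣ (k : ℤ) := by simpa using h1
        exact_mod_cast this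
      exact_mod_cast hm'.trans (Nat.le_of_dvd (Nat.pos_of_ne_zero h5) h6)
    · intro g hg
      rw [hev]
      apply hv
      rw [← hep]
      exact hg
    · intro z hz
      rw [map_one, ord_one c' hz.1]
      exact zero_ne_one
    · rw [Ne, hev]
      exact hG
  obtain ⟨a, rfl⟩ := (hm φ).mp hφ
  exact minf_quot hU (minf_extC hE a)

/-- the group of exponents orthogonal to `l` -/
def hyp (l : Fin N → ℤ) : Submodule ℤ (Fin N → ℤ) where
  carrier := {m | ∑ i, l i * m i = 0}
  add_mem' := by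
    intro a b ha hb
    simp only [Set.mem_ofPred_eq] at ha hb ⊢
    simp only [Pi.add_apply, mul_add, Finset.sum_add_distrib, ha, hb, add_zero]
  zero_mem' := by simp
  smul_mem' := by
    intro n a ha
    simp only [Set.mem_ofPred_eq] at ha ⊢
    simp only [Pi.smul_apply, smul_eq_mul, mul_left_comm _ n, ← Finset.mul_sum, ha, mul_zero]

theorem mem_hyp (l m : Fin N → ℤ) : m ∈ hyp l ↔ ∑ i, l i * m i = 0 := Iff.rfl

theorem hyp_sat (l : Fin N → ℤ) : Sat (hyp l) := by
  intro n m hn h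
  rw [mem_hyp] at h ⊢
  simp only [Pi.smul_apply, smul_eq_mul, mul_left_comm _ n, ← Finset.mul_sum] at h
  exact (mul_eq_zero.mp h).resolve_left hn

theorem hyp_ne (l : Fin N → ℤ) (hl : l ≠ 0) : hyp l ≠ ⊤ := by
  intro h
  apply hl
  funext i
  have h1 : (Pi.single i 1 : Fin N → ℤ) ∈ hyp l := h ▸ Submodule.mem_top
  rw [mem_hyp, Finset.sum_eq_single i] at h1
  · simpa using h1
  · intro j _ hj
    rw [Pi.single_eq_of_ne hj, mul_zero]
  · intro h2
    exact absurd (Finset.mem_univ i) h2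

theorem md_dvd {m e : ℕ} (h : e ≠ 0 → e ∣ m) : (md m e : ℤ) ∣ m := by
  unfold md
  split_ifs with h1
  · exact dvd_rfl
  · exact_mod_cast h h1

theorem md_dvd_mul (m e : ℕ) (s : ℤ) : (md m e : ℤ) ∣ e * s := by
  unfold md
  split_ifs with h1
  · rw [h1]
    simp
  · exact dvd_mul_right _ _

theorem root_ord {x1 x2 x3 x4 x5 : WithTop ℤ} {f t d s : ℤ} {m e : ℕ} (he : e ≠ 0 → e ∣ m)
    (h : x1 + x2 = x3 + x4 + x5) (h1 : x1 = 0) (h2 : x2 = ((md m e * f : ℤ) : WithTop ℤ))
    (h3 : x3 = (t : WithTop ℤ)) (h4 : x4 = (d : WithTop ℤ))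
    (h5 : x5 = ((e * s : ℤ) : WithTop ℤ)) (hd : (m : ℤ) ∣ d) :
    ∃ a : ℤ, x3 = ((md m e * a : ℤ) : WithTop ℤ) := by
  have h6 : (md m e * f : ℤ) = t + d + e * s := by
    rw [h1, h2, h3, h4, h5, zero_add] at h
    exact_mod_cast h
  have h7 : (md m e : ℤ) ∣ t := by
    have h8 : t = md m e * f - d - e * s := by linarith
    rw [h8]
    exact ((dvd_mul_right _ _).sub ((md_dvd he).trans hd)).sub (md_dvd_mul m e s)
  obtain ⟨a, ha⟩ := h7
  exact ⟨a, by rw [h3, ha]⟩

theorem t_prime (hl : St_least) (hq : St_quot) (hT : St_T) (hst : St_step) (hd : St_desc) :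
    St_prime := by
  intro N
  induction N using Nat.strong_induction_on with
  | _ N ih =>
  intro r K _ _ x F e hF
  obtain ⟨Γ₀, hs, hom, hmin⟩ := hl N (RingHom.ker (ep x))
  obtain ⟨μ0, G0, hG0, h0⟩ := step1 hT hq hd x Γ₀ hs hom hmin
  rcases hst N r K x Γ₀ hs hom hmin F e hF with
    ⟨l, hl0, hlΓ, A, D, S, a, hA⟩ | ⟨μ, G, W, hG, hW, hWΓ, h⟩
  · -- reduction to a smaller torus
    have hle : Γ₀ ≤ hyp l := fun m hm => hlΓ m hm
    obtain ⟨ρ, γ, Γ', hρ, -, hγ, hmγ, -, -, hep, -, -⟩ :=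
      hd N K x Γ₀ (hyp l) hs (hyp_sat l) hle hom hmin
    have hρ' : ρ < N := hρ (hyp_ne l hl0)
    have hA1 : ∀ j, ∃ A', lm γ A' = A j := fun j =>
      lm_lift γ (A j) fun m hm => (hmγ m).mp ((hA j).2.1 m hm)
    choose A' hA' using hA1
    obtain ⟨Γ'', A'', D'', S'', a'', m0'', G'', hs'', hG'', hom'', hj'', hc''⟩ :=
      ih ρ hρ' r K (fun i => xm x (γ i)) A' e
        (fun j => by rw [hep, hA']; exact (hA j).2.2.2.1)
    have homl := hom_mono hle hom
    have homi := img_hom x hγ hmγ hep homl hom''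
    have hsi := img_sat (hyp_sat l) hγ hmγ hs''
    have hΓi : Γ₀ ≤ img γ Γ'' := hmin _ hsi homi
    refine ⟨img γ Γ'', fun j => lm γ (A'' j), fun j => D j * lm γ (D'' j),
      fun j => S j * lm γ (S'' j), fun j => a j + ∑ i, a'' j i • γ i, max m0'' (max μ0 1),
      (∏ j, (D j * S j * A j * F j)) * lm γ G'' * G0, hsi, ?_, homi, fun j => ?_, ?_⟩
    · rw [map_mul, map_mul, map_prod, ← hep]
      refine mul_ne_zero (mul_ne_zero (Finset.prod_ne_zero_iff.mpr fun j _ => ?_) hG'') hG0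
      rw [map_mul, map_mul, map_mul]
      exact mul_ne_zero (mul_ne_zero (mul_ne_zero (hA j).2.2.1 (hA j).2.2.2.2.1)
        (hA j).2.2.2.1) (hF j)
    · have hdP : (D j * S j * A j * F j) ∣ ∏ j, (D j * S j * A j * F j) :=
        Finset.dvd_prod_of_mem (fun j => D j * S j * A j * F j) (Finset.mem_univ j)
      refine ⟨mul_supp _ (fun m hm => hΓi ((hA j).1 m hm)) fun m hm => ?_, fun m hm => ?_,
        ?_, ?_, ?_, ?_⟩
      · obtain ⟨b, hb, e1⟩ := lm_supp γ _ m hm
        exact (mem_img _ _ _).mpr ⟨b, (hj'' j).1 b hb, e1⟩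
      · obtain ⟨b, hb, e1⟩ := lm_supp γ _ m hm
        exact (mem_img _ _ _).mpr ⟨b, (hj'' j).2.1 b hb, e1⟩
      · refine (mul_dvd_mul ?_ (map_dvd (lm γ) (hj'' j).2.2.1)).mul_right _
        exact (((dvd_mul_right _ _).mul_right _).mul_right _).trans hdP
      · exact ((map_dvd (lm γ) (hj'' j).2.2.2.1).mul_left _).mul_right _
      · refine (mul_dvd_mul ?_ (map_dvd (lm γ) (hj'' j).2.2.2.2.1)).mul_right _
        exact (((dvd_mul_left _ _).mul_right _).mul_right _).trans hdP
      · have e1 := (hA j).2.2.2.2.2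
        have e2 := (hj'' j).2.2.2.2.2
        rw [hep, hep] at e2
        simp only [map_mul, map_pow, lm_single, hA'] at e1 e2 ⊢
        have e3 : (AddMonoidAlgebra.single (a j + ∑ i, a'' j i • γ i) (1 : ℂ) : Lau N)
            = AddMonoidAlgebra.single (a j) 1
              * AddMonoidAlgebra.single (∑ i, a'' j i • γ i) 1 := by
          rw [AddMonoidAlgebra.single_mul_single, one_mul]
        rw [e3, map_mul]
        linear_combination (ep x (lm γ (D'' j))) * e1
          + (ep x (AddMonoidAlgebra.single (a j) 1)) * (ep x (S j)) ^ e j * e2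
    · intro m hm he c hc hv hG φ hφ
      have hm1 : m0'' ≤ m := (le_max_left _ _).trans hm
      have hm2 : μ0 ≤ m := ((le_max_left _ _).trans (le_max_right _ _)).trans hm
      have hG1 : c.ev (∏ j, (D j * S j * A j * F j)) ≠ 0 := by
        intro h1
        apply hG
        rw [map_mul, map_mul, h1, zero_mul, zero_mul]
      have hG2 : c.ev (lm γ G'') ≠ 0 := by
        intro h1
        apply hG
        rw [map_mul, map_mul, h1, mul_zero, zero_mul]
      have hG3 : c.ev G0 ≠ 0 := by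
        intro h1
        apply hG
        rw [map_mul, h1, mul_zero]
      have hG4 : ∀ j, c.ev (D j * S j * A j * F j) ≠ 0 := by
        intro j h1
        apply hG1
        rw [map_prod]
        exact Finset.prod_eq_zero (Finset.mem_univ j) h1
      have hcD : ∀ j, c.ev (D j) ≠ 0 := fun j h1 => hG4 j (by
        rw [map_mul, map_mul, map_mul, h1, zero_mul, zero_mul, zero_mul])
      have hcS : ∀ j, c.ev (S j) ≠ 0 := fun j h1 => hG4 j (by
        rw [map_mul, map_mul, map_mul, h1, mul_zero, zero_mul, zero_mul])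
      have hcA : ∀ j, c.ev (A j) ≠ 0 := fun j h1 => hG4 j (by
        rw [map_mul, map_mul, map_mul, h1, mul_zero, zero_mul])
      have hcF : ∀ j, c.ev (F j) ≠ 0 := fun j h1 => hG4 j (by
        rw [map_mul, map_mul, map_mul, h1, mul_zero])
      have hΓ0 : ∀ φ ∈ Γ₀, MInf c φ := h0 m hm2 c hc.div hv hG3
      have hR : ∀ j, ∃ R : ℝ, ∀ z ∈ Ext c.r0, R < ‖z‖ → c.ord z (c.ev (D j)) = 0 := fun j =>
        ord_inf (D j) (hcD j) (fun m' hm' => hΓ0 m' ((hA j).1 m' hm'))
      choose R hR using hR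
      set R1 : ℝ := max c.r0 (∑ j, |R j|) with hR1
      have hR1' : c.r0 ≤ R1 := le_max_left _ _
      obtain ⟨c', hr, hU, hdiv', hev, hord⟩ := hq N ρ (rst c R1 hR1') γ
      have hadm : AdmG A' e m c' := by
        refine ⟨hdiv' m (rst_adm hc _).div, fun j _ z hz => ?_⟩
        have hz1 : z ∈ Ext R1 := by
          refine Ext_mono ?_ hz
          rw [hr]
          change R1 ≤ R1 + 1
          linarith
        have hz2 : z ∈ Ext c.r0 := Ext_mono hR1' hz1
        have hz3 : R j < ‖z‖ := by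
          refine lt_of_le_of_lt ?_ hz1
          refine (le_abs_self _).trans (le_trans ?_ (le_max_right _ _))
          exact Finset.single_le_sum (f := fun j => |R j|) (fun i _ => abs_nonneg _)
            (Finset.mem_univ j)
        rw [hord (A' j) z hz, hA', rst_ord _ hz1]
        have e1 : c.ev (D j * F j)
            = c.ev (A j * AddMonoidAlgebra.single (a j) 1 * S j ^ e j) := by
          rw [← sub_eq_zero, ← map_sub]
          apply hv
          rw [map_sub, sub_eq_zero]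
          exact (hA j).2.2.2.2.2
        obtain ⟨o1, -, -, -, -, o6⟩ := (Pool.Agent.Y852.OG.t_ord N c).1 z hz2
        have e2 := congrArg (c.ord z) e1
        rw [map_mul, map_mul, map_mul, map_pow, c.ev_single, one_smul, o1, o1, o1] at e2
        obtain ⟨s, hs⟩ := WithTop.ne_top_iff_exists.mp
          ((Pool.Agent.Y852.OG.t_ring N c).2.2.2 _ (hcS j) z hz2)
        obtain ⟨t, ht⟩ := WithTop.ne_top_iff_exists.mp
          ((Pool.Agent.Y852.OG.t_ring N c).2.2.2 _ (hcA j) z hz2)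
        obtain ⟨f, hf⟩ := hc.root j (hcF j) z hz2
        refine root_ord (he j) e2 (hR j z hz2 hz3) hf ht.symm (o6 (a j))
          (ord_pow c hz2 _ hs.symm (e j)) ?_
        unfold Curve.del
        exact Finset.dvd_sum fun i _ =>
          ((hc.div _ z hz2).sub (hc.div _ z hz2)).mul_left _
      have hfin := hc'' m hm1 he c' hadm (fun g hg => ?_) ?_
      · obtain ⟨b, hb, rfl⟩ := (mem_img _ _ _).mp hφ
        exact minf_rst (minf_quot hU (hfin b hb))
      · rw [hev, rst_ev]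
        apply hv
        rw [← hep]
        exact hg
      · rw [Ne, hev, rst_ev]
        exact hG2
  · -- the theorem for curves
    refine ⟨⊤, F, fun _ => 1, fun _ => 1, fun _ => 0, max μ μ0, G * W * G0 * ∏ j, F j,
      fun _ _ _ _ => Submodule.mem_top, ?_, ?_, fun j => ?_, ?_⟩
    · rw [map_mul, map_mul, map_mul, map_prod]
      exact mul_ne_zero (mul_ne_zero (mul_ne_zero hG hW) hG0)
        (Finset.prod_ne_zero_iff.mpr fun j _ => hF j)
    · intro g hg q
      rw [Pool.Agent.Y333.OG.comp_top]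
      exact hg
    · refine ⟨fun _ _ => Submodule.mem_top, fun _ _ => Submodule.mem_top, one_dvd _, ?_,
        one_dvd _, ?_⟩
      · exact (Finset.dvd_prod_of_mem F (Finset.mem_univ j)).mul_left _
      · rw [one_mul, one_pow, mul_one, ← AddMonoidAlgebra.one_def, mul_one]
    · intro m hm he c hc hv hGG γ _
      have hm1 : μ ≤ m := (le_max_left _ _).trans hm
      have hm2 : μ0 ≤ m := (le_max_right _ _).trans hm
      have hG1 : c.ev G ≠ 0 := by
        intro h1
        apply hGG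
        rw [map_mul, map_mul, map_mul, h1, zero_mul, zero_mul, zero_mul]
      have hG2 : c.ev W ≠ 0 := by
        intro h1
        apply hGG
        rw [map_mul, map_mul, map_mul, h1, mul_zero, zero_mul, zero_mul]
      have hG3 : c.ev G0 ≠ 0 := by
        intro h1
        apply hGG
        rw [map_mul, map_mul, h1, mul_zero, zero_mul]
      obtain ⟨R, hR⟩ := ord_inf W hG2
        (fun m' hm' => h0 m hm2 c hc.div hv hG3 m' (hWΓ m' hm'))
      have hR1 : c.r0 ≤ max c.r0 R := le_max_left _ _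
      have h1 := h m hm1 (rst c (max c.r0 R) hR1) (rst_adm hc _)
        (fun g hg => (rst_ev g).mpr (hv g hg)) (fun z hz => ?_)
        (fun h2 => hG1 ((rst_ev G).mp h2))
      · have h2 : ExtC c := fun i => h1 i
        exact minf_extC h2 γ
      · rw [rst_ord (R := max c.r0 R) (h := hR1) W hz.1]
        exact hR z (Ext_mono hR1 hz.1) (lt_of_le_of_lt (le_max_right _ _) hz.1)

end Pool.Agent.Y487.KG
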