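import Pool.Agent.Y487.KG.Lat
import Pool.Agent.Y852.OG.Ring

/-!
Restriction of curves to the exterior of a larger disc, monomials which are meromorphic at infinity.
-/

set_option autoImplicit false

namespace Pool.Agent.Y487.KG

open Filter Topology MvPolynomial Metric FF Pool.Agent.W602.GT Pool.Agent.Y192.OG
  Pool.Agent.W603.BP Pool.Agent.Y192.KC

variable {N ρ r : ℕ}

/-- the restriction of a curve to the exterior of a larger disc -/
def rst (c : Curve N) (R : ℝ) (h : c.r0 ≤ R) : Curve N where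
  r0 := R
  X := c.X
  hr0 := c.hr0.trans h
  an := fun i z hz => c.an i z (Ext_mono h hz)
  ncz := fun z hz => c.ncz z (Ext_mono h hz)
  nz := by
    intro i
    obtain ⟨z, hz⟩ := Ext_nonempty R
    have h1 : ∀ᶠ w in 𝓝[≠] z, c.X i w ≠ 0 := c.X_punct i (Ext_mono h hz)
    have h2 : ∀ᶠ w in 𝓝[≠] z, w ∈ Ext R := nhdsWithin_le_nhds ((Ext_open R).mem_nhds hz)
    obtain ⟨w, hw1, hw2⟩ := (h1.and h2).exists
    exact ⟨w, hw2, hw1⟩

theorem rst_U {c : Curve N} {R : ℝ} {h : c.r0 ≤ R} {z : ℂ} (hz : z ∈ (rst c R h).U) : z ∈ c.U :=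
  ⟨Ext_mono h hz.1, hz.2⟩

theorem rst_U' {c : Curve N} {R : ℝ} {h : c.r0 ≤ R} {z : ℂ} (hz : z ∈ c.U) (hR : z ∈ Ext R) :
    z ∈ (rst c R h).U :=
  ⟨hR, hz.2⟩

theorem rst_val {c : Curve N} {R : ℝ} {h : c.r0 ≤ R} (g : Lau N) {z : ℂ}
    (hz : z ∈ (rst c R h).U) :
    (rst c R h).val ((rst c R h).ev g) z = c.val (c.ev g) z := by
  rw [val_ev _ _ hz, val_ev _ _ (rst_U hz)]
  rfl

theorem rst_ord {c : Curve N} {R : ℝ} {h : c.r0 ≤ R} (g : Lau N) {z : ℂ} (hz : z ∈ Ext R) :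
    (rst c R h).ord z ((rst c R h).ev g) = c.ord z (c.ev g) := by
  unfold Curve.ord
  apply meromorphicOrderAt_congr
  filter_upwards [(rst c R h).U_punct hz] with w hw
  exact rst_val g hw

theorem val_zero (c : Curve N) (z : ℂ) : c.val 0 z = 0 := by
  unfold Curve.val
  by_cases h : z ∈ c.U
  · rw [c.ext_of_mem _ h]
    rfl
  · rw [c.ext_of_notMem _ h]

theorem rst_ev {c : Curve N} {R : ℝ} {h : c.r0 ≤ R} (g : Lau N) :
    (rst c R h).ev g = 0 ↔ c.ev g = 0 := by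
  constructor
  · intro h0
    by_contra hne
    obtain ⟨z, hz⟩ := Ext_nonempty R
    have h1 := (Pool.Agent.Y852.OG.t_ring N c).2.2.2 _ hne z (Ext_mono h hz)
    rw [← rst_ord (h := h) g hz, h0, ord_zero] at h1
    exact h1 rfl
  · intro h0
    apply (rst c R h).val_inj
    intro z hz
    rw [rst_val g hz, h0, val_zero, val_zero]

theorem rst_adm {F : Fin r → Lau N} {e : Fin r → ℕ} {m : ℕ} {c : Curve N} (hc : AdmG F e m c)
    {R : ℝ} (h : c.r0 ≤ R) : AdmG F e m (rst c R h) where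
  div := fun i z hz => hc.div i z (Ext_mono h hz)
  root := by
    intro j hj z hz
    rw [rst_ord (R := R) (h := h) (F j) hz]
    exact hc.root j (fun h0 => hj ((rst_ev _).mpr h0)) z (Ext_mono h hz)

theorem minf_rst {c : Curve N} {R : ℝ} {h : c.r0 ≤ R} {φ : Fin N → ℤ}
    (h1 : MInf (rst c R h) φ) : MInf c φ := by
  obtain ⟨S, hS, R0, hR⟩ := h1
  refine ⟨S, hS, max R0 R, fun z hz hz' => ?_⟩
  exact hR z (rst_U' hz (lt_of_le_of_lt (le_max_right _ _) hz'))
    (lt_of_le_of_lt (le_max_left _ _) hz')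

theorem minf_extC {c : Curve N} (h : ExtC c) (a : Fin N → ℤ) : MInf c a := by
  choose S hS R0 hR using h
  refine ⟨fun z => ∏ i, S (Fin.succ i) z ^ a i, ?_, ∑ i, |R0 (Fin.succ i)|, fun z hz hz' => ?_⟩
  · exact MeromorphicAt.fun_prod fun i _ => (hS (Fin.succ i)).fun_zpow _
  · unfold Curve.monf
    refine Finset.prod_congr rfl fun i _ => ?_
    congr 1
    have h1 : R0 (Fin.succ i) < ‖z‖ := by
      refine lt_of_le_of_lt ?_ hz'
      refine (le_abs_self _).trans ?_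
      exact Finset.single_le_sum (f := fun i : Fin N => |R0 (Fin.succ i)|)
        (fun i _ => abs_nonneg _) (Finset.mem_univ i)
    unfold Curve.xf
    rw [hR (Fin.succ i) z h1, mul_div_assoc, div_self (hz.2 0), mul_one]

/-- monomials on a quotient -/
theorem minf_quot {c : Curve N} {c' : Curve ρ} {γ : Fin ρ → Fin N → ℤ}
    (h : ∀ z ∈ Ext c'.r0, z ∈ c.U → z ∈ c'.U ∧ ∀ i, c'.xf i z = c.monf (γ i) z)
    {a : Fin ρ → ℤ} (h1 : MInf c' a) : MInf c (∑ i, a i • γ i) := by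
  obtain ⟨S, hS, R0, hR⟩ := h1
  refine ⟨S, hS, max R0 c'.r0, fun z hz hz' => ?_⟩
  have h2 : z ∈ Ext c'.r0 := lt_of_le_of_lt (le_max_right _ _) hz'
  obtain ⟨h3, h4⟩ := h z h2 hz
  rw [← hR z h3 (lt_of_le_of_lt (le_max_left _ _) hz')]
  have h5 : c'.monf a z = ∏ i, c.monf (γ i) z ^ a i := by
    unfold Curve.monf
    refine Finset.prod_congr rfl fun i _ => ?_
    rw [h4 i]
    rfl
  rw [h5]
  unfold Curve.monf
  simp only [← Finset.prod_zpow, ← zpow_mul]
  rw [Finset.prod_comm]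
  refine Finset.prod_congr rfl fun i _ => ?_
  rw [Finset.sum_apply]
  have h6 : ∀ s : Finset (Fin ρ), c.xf i z ^ (∑ j ∈ s, (a j • γ j) i)
      = ∏ j ∈ s, c.xf i z ^ (γ j i * a j) := by
    classical
    intro s
    induction s using Finset.induction_on with
    | empty => simp
    | insert j s hj ih =>
      rw [Finset.sum_insert hj, Finset.prod_insert hj, zpow_add₀ (c.xf_ne i hz), ih,
        Pi.smul_apply, smul_eq_mul, mul_comm (a j)]
  exact h6 _

theorem ev_mero {c : Curve N} (g : Lau N) (h : ∀ m ∈ g.coeff.support, MInf c m) :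
    ∃ S : ℂ → ℂ, MeromorphicAt (fun w => S w⁻¹) 0 ∧ ∃ R0 : ℝ, ∀ z ∈ c.U, R0 < ‖z‖ →
      c.val (c.ev g) z = S z := by
  classical
  have h1 : ∀ m : Fin N → ℤ, ∃ (S : ℂ → ℂ) (R0 : ℝ), MeromorphicAt (fun w => S w⁻¹) 0 ∧
      (m ∈ g.coeff.support → ∀ z ∈ c.U, R0 < ‖z‖ → c.monf m z = S z) := by
    intro m
    by_cases hm : m ∈ g.coeff.support
    · obtain ⟨S, hS, R0, hR⟩ := h m hm
      exact ⟨S, R0, hS, fun _ => hR⟩
    · exact ⟨fun _ => 0, 0, MeromorphicAt.const 0 0, fun h => absurd h hm⟩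
  choose S R0 hS hR using h1
  refine ⟨fun z => ∑ m ∈ g.coeff.support, g.coeff m * S m z, ?_,
    ∑ m ∈ g.coeff.support, |R0 m|, fun z hz hz' => ?_⟩
  · exact MeromorphicAt.fun_sum fun m _ => (MeromorphicAt.const _ _).fun_mul (hS m)
  · rw [val_ev _ _ hz]
    unfold lev Finsupp.sum
    refine Finset.sum_congr rfl fun m hm => ?_
    have h2 : R0 m < ‖z‖ := by
      refine lt_of_le_of_lt ?_ hz'
      refine (le_abs_self _).trans ?_
      exact Finset.single_le_sum (f := fun m => |R0 m|) (fun i _ => abs_nonneg _) hm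
    rw [← hR m hm z hz h2]
    rfl

theorem ev_inf {P : ℂ → Prop} (h : ∀ᶠ w in 𝓝[≠] (0 : ℂ), P w) :
    ∃ R : ℝ, ∀ z : ℂ, R < ‖z‖ → P z⁻¹ := by
  rw [eventually_nhdsWithin_iff, Metric.eventually_nhds_iff] at h
  obtain ⟨ε, hε, h⟩ := h
  refine ⟨1 / ε, fun z hz => ?_⟩
  have h0 : 0 < ‖z‖ := lt_trans (by positivity) hz
  apply h
  · rw [dist_zero_right, norm_inv]
    rw [inv_lt_comm₀ h0 hε, ← one_div]
    exact hz
  · exact inv_ne_zero (norm_pos_iff.mp h0)

/-- nonzero Laurent polynomials in the monomials which are meromorphic at infinity have no zeros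
and poles near infinity -/
theorem ord_inf {c : Curve N} (g : Lau N) (hg : c.ev g ≠ 0)
    (h : ∀ m ∈ g.coeff.support, MInf c m) :
    ∃ R : ℝ, ∀ z ∈ Ext c.r0, R < ‖z‖ → c.ord z (c.ev g) = 0 := by
  obtain ⟨S, hS, R0, hR⟩ := ev_mero g h
  have hcon : ∀ z ∈ Ext c.r0, R0 < ‖z‖ → c.val (c.ev g) =ᶠ[𝓝[≠] z] S := by
    intro z hz hz'
    have h1 : ∀ᶠ w in 𝓝[≠] z, R0 < ‖w‖ :=
      nhdsWithin_le_nhds (continuous_norm.continuousAt.eventually (lt_mem_nhds hz'))
    filter_upwards [c.U_punct hz, h1] with w hw hw'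
    exact hR w hw hw'
  have hSS : S = fun z => (fun w => S w⁻¹) z⁻¹ := by
    funext z
    simp only [inv_inv]
  rcases hS.eventually_eq_zero_or_eventually_ne_zero with h0 | h0
  · exfalso
    obtain ⟨R1, hR1⟩ := ev_inf h0
    obtain ⟨z, hz⟩ := Ext_nonempty (max c.r0 (max R0 R1))
    have hz1 : c.r0 < ‖z‖ := lt_of_le_of_lt (le_max_left _ _) hz
    have hz2 : R0 < ‖z‖ := lt_of_le_of_lt ((le_max_left _ _).trans (le_max_right _ _)) hz
    have hz3 : R1 < ‖z‖ := lt_of_le_of_lt ((le_max_right _ _).trans (le_max_right _ _)) hz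
    apply (Pool.Agent.Y852.OG.t_ring N c).2.2.2 _ hg z hz1
    unfold Curve.ord
    rw [meromorphicOrderAt_eq_top_iff]
    have h1 : ∀ᶠ w in 𝓝[≠] z, R1 < ‖w‖ :=
      nhdsWithin_le_nhds (continuous_norm.continuousAt.eventually (lt_mem_nhds hz3))
    filter_upwards [hcon z hz1 hz2, h1] with w hw hw'
    rw [hw]
    have := hR1 w hw'
    simpa using this
  · obtain ⟨R1, hR1⟩ := ev_inf h0
    obtain ⟨R2, hR2⟩ := ev_inf hS.eventually_analyticAt
    refine ⟨max R0 (max R1 (max R2 0)), fun z hz hz' => ?_⟩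
    have hz2 : R0 < ‖z‖ := lt_of_le_of_lt (le_max_left _ _) hz'
    have hz3 : max R1 (max R2 0) < ‖z‖ := lt_of_le_of_lt (le_max_right _ _) hz'
    have hz4 : R1 < ‖z‖ := lt_of_le_of_lt (le_max_left _ _) hz3
    have hz5 : max R2 0 < ‖z‖ := lt_of_le_of_lt (le_max_right _ _) hz3
    have hz6 : R2 < ‖z‖ := lt_of_le_of_lt (le_max_left _ _) hz5
    have hz7 : 0 < ‖z‖ := lt_of_le_of_lt (le_max_right _ _) hz5
    have hz8 : z ≠ 0 := norm_pos_iff.mp hz7
    have han : AnalyticAt ℂ S z := by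
      rw [hSS]
      exact AnalyticAt.fun_comp (g := fun w => S w⁻¹) (f := fun z : ℂ => z⁻¹) (hR2 z hz6)
        (analyticAt_id.fun_inv hz8)
    have hne : S z ≠ 0 := by
      have := hR1 z hz4
      simpa using this
    unfold Curve.ord
    rw [meromorphicOrderAt_congr (hcon z hz hz2), han.meromorphicOrderAt_eq,
      (han.analyticOrderAt_eq_zero).mpr hne]
    rfl

end Pool.Agent.Y487.KG
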