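import Pool.Agent.Y192.KC.Stm2
import Pool.Agent.Y192.OG.B7

/-!
Homomorphisms of rings of Laurent polynomials given by monomials, and homogeneous ideals.
-/

set_option autoImplicit false

namespace Pool.Agent.Y487.KG

open MvPolynomial Metric FF Pool.Agent.W602.GT Pool.Agent.Y192.OG Pool.Agent.W603.BP
  Pool.Agent.Y192.KC

variable {N ρ : ℕ}

theorem lm_single (γ : Fin ρ → Fin N → ℤ) (a : Fin ρ → ℤ) (c : ℂ) :
    lm γ (AddMonoidAlgebra.single a c) = AddMonoidAlgebra.single (∑ i, a i • γ i) c := by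
  unfold lm
  rw [AddMonoidAlgebra.lift_single]
  change c • AddMonoidAlgebra.single (∑ i, a i • γ i) (1 : ℂ) = _
  rw [AddMonoidAlgebra.smul_single, smul_eq_mul, mul_one]

theorem lm_supp (γ : Fin ρ → Fin N → ℤ) (g : Lau ρ) (m : Fin N → ℤ)
    (hm : m ∈ (lm γ g).coeff.support) : ∃ a ∈ g.coeff.support, m = ∑ i, a i • γ i := by
  classical
  rw [Finsupp.mem_support_iff] at hm
  have hg : g = ∑ a ∈ g.coeff.support, AddMonoidAlgebra.single a (g.coeff a) := by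
    conv_lhs => rw [← AddMonoidAlgebra.sum_coeff_single g]
    rfl
  rw [hg, map_sum, AddMonoidAlgebra.coeff_sum, Finsupp.finsetSum_apply] at hm
  obtain ⟨a, ha, h⟩ := Finset.exists_ne_zero_of_sum_ne_zero hm
  refine ⟨a, ha, ?_⟩
  rw [lm_single, AddMonoidAlgebra.coeff_single, Finsupp.single_apply] at h
  by_contra hne
  rw [if_neg fun h1 => hne h1.symm] at h
  exact h rfl

theorem lm_lift (γ : Fin ρ → Fin N → ℤ) (A : Lau N)
    (hA : ∀ m ∈ A.coeff.support, ∃ a : Fin ρ → ℤ, m = ∑ i, a i • γ i) :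
    ∃ A' : Lau ρ, lm γ A' = A := by
  classical
  have h1 : ∀ m : Fin N → ℤ, ∃ a : Fin ρ → ℤ, m ∈ A.coeff.support → m = ∑ i, a i • γ i := by
    intro m
    by_cases hm : m ∈ A.coeff.support
    · obtain ⟨a, ha⟩ := hA m hm
      exact ⟨a, fun _ => ha⟩
    · exact ⟨0, fun h => absurd h hm⟩
  choose b hb using h1
  refine ⟨∑ m ∈ A.coeff.support, AddMonoidAlgebra.single (b m) (A.coeff m), ?_⟩
  rw [map_sum]
  conv_rhs => rw [← AddMonoidAlgebra.sum_coeff_single A]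
  refine Finset.sum_congr rfl fun m hm => ?_
  rw [lm_single, ← hb m hm]

theorem mul_supp (Γ : Submodule ℤ (Fin N → ℤ)) {p q : Lau N} (hp : ∀ m ∈ p.coeff.support, m ∈ Γ)
    (hq : ∀ m ∈ q.coeff.support, m ∈ Γ) : ∀ m ∈ (p * q).coeff.support, m ∈ Γ := by
  classical
  intro m hm
  have h1 := AddMonoidAlgebra.support_coeff_mul_subset p q hm
  obtain ⟨a, ha, b, hb, rfl⟩ := Finset.mem_add.mp h1
  exact Γ.add_mem (hp a ha) (hq b hb)

/-- ideals which are homogeneous with respect to a group are homogeneous with respect to larger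
groups -/
theorem hom_mono {I : Ideal (Lau N)} {Γ₀ Γ : Submodule ℤ (Fin N → ℤ)} (h : Γ₀ ≤ Γ)
    (hom : ∀ g ∈ I, ∀ q, comp Γ₀ q g ∈ I) : ∀ g ∈ I, ∀ q, comp Γ q g ∈ I := by
  classical
  intro g hg q
  rw [← sum_comp Γ₀ (comp Γ q g)]
  refine I.sum_mem fun q0 hq0 => ?_
  obtain ⟨t, ht, rfl⟩ := Finset.mem_image.mp hq0
  obtain ⟨h1, -⟩ := comp_supp Γ q g t ht
  rw [← h1, comp_comp Γ h]
  exact hom g hg _

/-- the image of a group of exponents -/
def img (γ : Fin ρ → Fin N → ℤ) (Γ'' : Submodule ℤ (Fin ρ → ℤ)) : Submodule ℤ (Fin N → ℤ) :=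
  Γ''.map (Fintype.linearCombination ℤ γ)

theorem mem_img (γ : Fin ρ → Fin N → ℤ) (Γ'' : Submodule ℤ (Fin ρ → ℤ)) (m : Fin N → ℤ) :
    m ∈ img γ Γ'' ↔ ∃ a ∈ Γ'', m = ∑ i, a i • γ i := by
  unfold img
  rw [Submodule.mem_map]
  simp only [Fintype.linearCombination_apply]
  constructor
  · rintro ⟨a, ha, rfl⟩
    exact ⟨a, ha, rfl⟩
  · rintro ⟨a, ha, rfl⟩
    exact ⟨a, ha, rfl⟩

theorem comb_inj {γ : Fin ρ → Fin N → ℤ}
    (hγ : ∀ a : Fin ρ → ℤ, ∑ i, a i • γ i = 0 → a = 0) {a b : Fin ρ → ℤ}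
    (h : ∑ i, a i • γ i = ∑ i, b i • γ i) : a = b := by
  have h1 : ∑ i, (a - b) i • γ i = 0 := by
    simp only [Pi.sub_apply, sub_smul, Finset.sum_sub_distrib]
    rw [h, sub_self]
  exact sub_eq_zero.mp (hγ _ h1)

theorem img_sat {γ : Fin ρ → Fin N → ℤ} {Γ : Submodule ℤ (Fin N → ℤ)} (hΓ : Sat Γ)
    (hγ : ∀ a : Fin ρ → ℤ, ∑ i, a i • γ i = 0 → a = 0)
    (hm : ∀ m, m ∈ Γ ↔ ∃ a : Fin ρ → ℤ, m = ∑ i, a i • γ i)
    {Γ'' : Submodule ℤ (Fin ρ → ℤ)} (h'' : Sat Γ'') : Sat (img γ Γ'') := by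
  intro n m hn h
  rw [mem_img] at h ⊢
  obtain ⟨a, ha, e⟩ := h
  obtain ⟨b, rfl⟩ := (hm m).mp (hΓ n m hn ((hm _).mpr ⟨a, e⟩))
  refine ⟨b, ?_, rfl⟩
  apply h'' n b hn
  have h1 : n • b = a := by
    apply comb_inj hγ
    rw [← e, Finset.smul_sum]
    refine Finset.sum_congr rfl fun i _ => ?_
    rw [Pi.smul_apply, smul_eq_mul, mul_smul]
  rw [h1]
  exact ha

theorem comp_lm {γ : Fin ρ → Fin N → ℤ} (hγ : ∀ a : Fin ρ → ℤ, ∑ i, a i • γ i = 0 → a = 0)
    (Γ'' : Submodule ℤ (Fin ρ → ℤ)) (g : Lau ρ) :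
    comp (img γ Γ'') 0 (lm γ g) = lm γ (comp Γ'' 0 g) := by
  induction g using AddMonoidAlgebra.induction_linear with
  | zero => rw [map_zero, comp_zero, comp_zero, map_zero]
  | add f g hf hg => rw [map_add, comp_add, comp_add, map_add, hf, hg]
  | single a c =>
    rw [lm_single]
    by_cases h : a ∈ Γ''
    · rw [comp_single_pos, comp_single_pos, lm_single]
      · exact (Submodule.Quotient.mk_eq_zero Γ'').mpr h
      · exact (Submodule.Quotient.mk_eq_zero _).mpr ((mem_img _ _ _).mpr ⟨a, h, rfl⟩)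
    · rw [comp_single_neg, comp_single_neg, map_zero]
      · exact fun h1 => h ((Submodule.Quotient.mk_eq_zero Γ'').mp h1)
      · intro h1
        obtain ⟨b, hb, e⟩ := (mem_img _ _ _).mp ((Submodule.Quotient.mk_eq_zero _).mp h1)
        rw [comb_inj hγ e] at h
        exact h hb

/-- homogeneity with respect to the image of a group of exponents -/
theorem img_hom {K : Type} [Field K] [Algebra ℂ K] (x : Fin N → Kˣ)
    {γ : Fin ρ → Fin N → ℤ} {Γ : Submodule ℤ (Fin N → ℤ)}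
    (hγ : ∀ a : Fin ρ → ℤ, ∑ i, a i • γ i = 0 → a = 0)
    (hm : ∀ m, m ∈ Γ ↔ ∃ a : Fin ρ → ℤ, m = ∑ i, a i • γ i)
    (hep : ∀ g : Lau ρ, ep (fun i => xm x (γ i)) g = ep x (lm γ g))
    (hom : ∀ g ∈ RingHom.ker (ep x), ∀ q, comp Γ q g ∈ RingHom.ker (ep x))
    {Γ'' : Submodule ℤ (Fin ρ → ℤ)}
    (h'' : ∀ g ∈ RingHom.ker (ep fun i => xm x (γ i)), ∀ q,
      comp Γ'' q g ∈ RingHom.ker (ep fun i => xm x (γ i))) :
    ∀ g ∈ RingHom.ker (ep x), ∀ q, comp (img γ Γ'') q g ∈ RingHom.ker (ep x) := by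
  intro g hg q
  obtain ⟨t, rfl⟩ := (img γ Γ'').mkQ_surjective q
  have hle : img γ Γ'' ≤ Γ := by
    intro m h
    obtain ⟨a, -, e⟩ := (mem_img _ _ _).mp h
    exact (hm m).mpr ⟨a, e⟩
  rw [← comp_comp Γ hle]
  have h1 := hom g hg (Γ.mkQ t)
  set h := comp Γ (Γ.mkQ t) g with hh
  have h2 : ∀ m ∈ (AddMonoidAlgebra.single (-t) (1 : ℂ) * h).coeff.support,
      ∃ a : Fin ρ → ℤ, m = ∑ i, a i • γ i := by
    classical
    intro m hm'
    have h3 := AddMonoidAlgebra.support_coeff_mul_subset _ _ hm'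
    obtain ⟨a, ha, b, hb, rfl⟩ := Finset.mem_add.mp h3
    have h4 : a = -t := by
      by_contra hne
      rw [Finsupp.mem_support_iff, AddMonoidAlgebra.coeff_single, Finsupp.single_apply,
        if_neg fun h5 => hne h5.symm] at ha
      exact ha rfl
    obtain ⟨h5, -⟩ := comp_supp Γ _ g b hb
    rw [← hm, h4]
    have h6 : Γ.mkQ (-t + b) = 0 := by
      rw [map_add, map_neg, h5, neg_add_cancel]
    exact (Submodule.Quotient.mk_eq_zero Γ).mp h6
  obtain ⟨g', hg'⟩ := lm_lift γ _ h2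
  have h3 : h = AddMonoidAlgebra.single t (1 : ℂ) * lm γ g' := by
    rw [hg', ← mul_assoc, AddMonoidAlgebra.single_mul_single, add_neg_cancel, one_mul]
    exact (one_mul h).symm
  have h4 : g' ∈ RingHom.ker (ep fun i => xm x (γ i)) := by
    rw [RingHom.mem_ker] at h1 ⊢
    rw [hep, hg', map_mul, h1, mul_zero]
  have h5 := h'' g' h4 0
  rw [RingHom.mem_ker, hep] at h5
  have h6 := comp_shift (img γ Γ'') t 0 (lm γ g')
  rw [zero_add] at h6
  rw [h3, h6, RingHom.mem_ker, map_mul, map_zero, comp_lm hγ, h5, mul_zero]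

end Pool.Agent.Y487.KG
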